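import Pool.Agent.Run7.h350.FK.Iface

set_option autoImplicit false

namespace Pool.Agent.Run7.h288.FK

open MeasureTheory Set Topology Pool.Agent.Run7.h350.FK
open scoped ENNReal NNReal

theorem rad_eq {n : ℕ} (f : CE n → ℂ) (z : CE n) : rad f z = fderiv ℂ f z z := by
  have h : z = ∑ k, z k • EuclideanSpace.single k (1 : ℂ) := by
    ext i
    rw [WithLp.ofLp_sum, Finset.sum_apply]
    simp
  rw [congrArg (fderiv ℂ f z) h, map_sum]
  unfold rad
  refine Finset.sum_congr rfl fun k _ => ?_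
  rw [map_smul, smul_eq_mul]

theorem rad_ent {n : ℕ} (f : CE n → ℂ) (hf : Ent f) : Ent (rad f) := by
  have h1 : AnalyticOnNhd ℂ (fderiv ℂ f) univ := AnalyticOnNhd.fderiv hf
  have h2 : ∀ k : Fin n, AnalyticOnNhd ℂ
      (fun z : CE n => z k * fderiv ℂ f z (EuclideanSpace.single k 1)) univ := by
    intro k
    have h3 : AnalyticOnNhd ℂ (fun z : CE n => z k) univ := by
      have h5 : AnalyticOnNhd ℂ (fun z : CE n => (EuclideanSpace.proj k : CE n →L[ℂ] ℂ) z) univ :=
        fun z _ => (EuclideanSpace.proj k : CE n →L[ℂ] ℂ).analyticAt z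
      exact h5
    have h4 : AnalyticOnNhd ℂ (fun z : CE n => fderiv ℂ f z (EuclideanSpace.single k 1)) univ := by
      intro z _
      exact ((ContinuousLinearMap.apply ℂ ℂ (EuclideanSpace.single k (1 : ℂ))).analyticAt _).comp
        (h1 z (mem_univ z))
    exact h3.mul h4
  exact Finset.analyticOnNhd_fun_sum _ fun k _ => h2 k

theorem t_ANA : S_ANA := by
  intro n f hf
  refine ⟨rad_ent f hf, rad_eq f, fun z ρ M hρ hρ1 hM => ?_⟩
  have hM0 : 0 ≤ M := (norm_nonneg _).trans (hM 1 ⟨hρ1, le_rfl⟩)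
  have hd : ∀ τ : ℝ, HasDerivAt (fun t : ℝ => f (t • z)) (fderiv ℂ f (τ • z) z) τ := by
    intro τ
    have h1 : HasFDerivAt f (fderiv ℂ f (τ • z)) (τ • z) :=
      (hf (τ • z) (mem_univ _)).differentiableAt.hasFDerivAt
    have h2 : HasDerivAt (fun t : ℝ => t • z) z τ := by
      have := (hasDerivAt_id τ).smul_const z
      simpa using this
    have h3 := (h1.restrictScalars ℝ).comp_hasDerivAt τ h2
    exact h3
  have key := norm_image_sub_le_of_norm_deriv_le_segment' (f := fun t : ℝ => f (t • z))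
    (f' := fun τ => fderiv ℂ f (τ • z) z) (a := ρ) (b := 1) (C := M / ρ)
    (fun x _ => (hd x).hasDerivWithinAt) (fun τ hτ => ?_) 1 ⟨hρ1, le_rfl⟩
  · have h5 : M / ρ * (1 - ρ) = (1 - ρ) / ρ * M := by ring
    rw [h5] at key
    simpa using key
  · have hτ0 : 0 < τ := lt_of_lt_of_le hρ hτ.1
    have h6 : rad f (τ • z) = τ • fderiv ℂ f (τ • z) z := by
      rw [rad_eq, ContinuousLinearMap.map_smul_of_tower]
    have h7 := hM τ ⟨hτ.1, hτ.2.le⟩
    rw [h6, norm_smul, Real.norm_eq_abs, abs_of_pos hτ0] at h7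
    rw [le_div_iff₀ hρ]
    calc ‖fderiv ℂ f (τ • z) z‖ * ρ ≤ ‖fderiv ℂ f (τ • z) z‖ * τ :=
          mul_le_mul_of_nonneg_left hτ.1 (norm_nonneg _)
      _ = τ * ‖fderiv ℂ f (τ • z) z‖ := mul_comm _ _
      _ ≤ M := h7

end Pool.Agent.Run7.h288.FK
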