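import Pool.Agent.Run7.h350.FK.Iface

set_option autoImplicit false

namespace Pool.Agent.Run7.h288.FK

open MeasureTheory Set Topology Pool.Agent.Run7.h350.FK
open scoped ENNReal NNReal

theorem finrank_CE (n : ℕ) : Module.finrank ℝ (CE n) = 2 * n := by
  rw [← Module.finrank_mul_finrank ℝ ℂ (CE n), finrank_euclideanSpace_fin,
    Complex.finrank_real_complex]

theorem shell_meas (n K : ℕ) : MeasurableSet (shell n K) := by
  refine MeasurableSet.inter ?_ ?_
  · exact measurableSet_le measurable_const (measurable_norm.pow_const 2)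
  · exact measurableSet_lt (measurable_norm.pow_const 2) measurable_const

theorem t_DIL : S_DIL := by
  intro n G hG K hK
  have hK0 : (0 : ℝ) < K := by positivity
  have hK1 : (0 : ℝ) < (K : ℝ) - 1 := by
    have : (2 : ℝ) ≤ K := by exact_mod_cast hK
    linarith
  set ρ : ℝ := Real.sqrt (((K : ℝ) - 1) / K) with hρ
  have hq : 0 < ((K : ℝ) - 1) / K := div_pos hK1 hK0
  have hρ0 : 0 < ρ := Real.sqrt_pos.2 hq
  have hρ2 : ρ ^ 2 = ((K : ℝ) - 1) / K := Real.sq_sqrt hq.le
  have hcast : ((K - 1 : ℕ) : ℝ) = (K : ℝ) - 1 := by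
    rw [Nat.cast_sub (by omega), Nat.cast_one]
  have hin : ∀ z ∈ shell n K, ρ • z ∈ shell n (K - 1) := by
    rintro z ⟨hz1, hz2⟩
    have e : ‖ρ • z‖ ^ 2 = ((K : ℝ) - 1) / K * ‖z‖ ^ 2 := by
      rw [norm_smul, mul_pow, Real.norm_eq_abs, sq_abs, hρ2]
    refine ⟨?_, ?_⟩
    · show (((K - 1 : ℕ) : ℝ)) ≤ ‖ρ • z‖ ^ 2
      rw [e, hcast]
      calc (K : ℝ) - 1 = ((K : ℝ) - 1) / K * K := by field_simp
        _ ≤ _ := mul_le_mul_of_nonneg_left hz1 hq.le
    · show ‖ρ • z‖ ^ 2 < ((K - 1 : ℕ) : ℝ) + 1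
      rw [e, hcast]
      calc ((K : ℝ) - 1) / K * ‖z‖ ^ 2 < ((K : ℝ) - 1) / K * (K + 1) :=
            mul_lt_mul_of_pos_left hz2 hq
        _ = (K : ℝ) - 1 / K := by field_simp; ring
        _ < (K : ℝ) - 1 + 1 := by
            have : 0 < 1 / (K : ℝ) := by positivity
            linarith
  let F : CE n → ℝ≥0∞ := (shell n (K - 1)).indicator G
  have hF : Measurable F := hG.indicator (shell_meas n (K - 1))
  have hmap := Measure.map_addHaar_smul (volume : Measure (CE n)) hρ0.ne'
  have hconst : |(ρ ^ Module.finrank ℝ (CE n))⁻¹| = ((K : ℝ) / (K - 1)) ^ n := by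
    rw [finrank_CE, pow_mul, hρ2, abs_of_nonneg (by positivity), ← inv_pow, inv_div]
  calc ∫⁻ z in shell n K, G (ρ • z) ≤ ∫⁻ z, F (ρ • z) := by
        rw [← lintegral_indicator (shell_meas n K)]
        refine lintegral_mono fun z => ?_
        by_cases hz : z ∈ shell n K
        · rw [indicator_of_mem hz]
          show _ ≤ (shell n (K - 1)).indicator G (ρ • z)
          rw [indicator_of_mem (hin z hz)]
        · rw [indicator_of_notMem hz]
          exact zero_le
    _ = ∫⁻ z, F z ∂(Measure.map (fun z : CE n => ρ • z) volume) :=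
        (lintegral_map hF (measurable_const_smul ρ)).symm
    _ = ENNReal.ofReal (((K : ℝ) / (K - 1)) ^ n) * ∫⁻ z in shell n (K - 1), G z := by
        rw [hmap, lintegral_smul_measure, hconst, smul_eq_mul,
          ← lintegral_indicator (shell_meas n (K - 1))]

end Pool.Agent.Run7.h288.FK
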