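import Pool.Agent.Run7.h350.FK.Iface

set_option autoImplicit false

namespace Pool.Agent.Run7.h288.FK

open MeasureTheory Set Topology Pool.Agent.Run7.h350.FK
open scoped ENNReal NNReal

theorem t_FUB : S_FUB := by
  classical
  intro n G hG S T r hS hT hST
  let k : CE n → CE n → ℝ≥0∞ := fun z y => if dist y z < r then G y else 0
  have hk : Measurable (Function.uncurry k) :=
    Measurable.ite (measurableSet_lt (measurable_snd.dist measurable_fst) measurable_const)
      (hG.comp measurable_snd) measurable_const
  have h1 : ∀ z ∈ S, ∫⁻ y in Metric.ball z r, G y ≤ ∫⁻ y in T, k z y := by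
    intro z hz
    rw [← lintegral_indicator measurableSet_ball, ← lintegral_indicator hT]
    refine lintegral_mono fun y => ?_
    by_cases hy : y ∈ Metric.ball z r
    · have hy' : dist y z < r := hy
      rw [indicator_of_mem hy, indicator_of_mem (hST z hz hy)]
      simp [k, hy']
    · rw [indicator_of_notMem hy]
      exact zero_le
  have h3 : ∀ y, ∫⁻ z in S, k z y ≤ G y * volume (Metric.ball (0 : CE n) r) := by
    intro y
    calc ∫⁻ z in S, k z y ≤ ∫⁻ z, k z y := setLIntegral_le_lintegral _ _
      _ = ∫⁻ z, (Metric.ball y r).indicator (fun _ => G y) z := by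
          refine lintegral_congr fun z => ?_
          by_cases hz : z ∈ Metric.ball y r
          · have hz' : dist y z < r := by rw [dist_comm]; exact hz
            rw [indicator_of_mem hz]
            simp [k, hz']
          · have hz' : ¬ dist y z < r := by rw [dist_comm]; exact hz
            rw [indicator_of_notMem hz]
            simp [k, hz']
      _ = G y * volume (Metric.ball y r) := by
          rw [lintegral_indicator_const measurableSet_ball]
      _ = G y * volume (Metric.ball (0 : CE n) r) := by
          rw [Measure.addHaar_ball_center]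
  calc ∫⁻ z in S, ∫⁻ y in Metric.ball z r, G y
      ≤ ∫⁻ z in S, ∫⁻ y in T, k z y := setLIntegral_mono' hS h1
    _ = ∫⁻ y in T, ∫⁻ z in S, k z y := lintegral_lintegral_swap hk.aemeasurable
    _ ≤ ∫⁻ y in T, G y * volume (Metric.ball (0 : CE n) r) := lintegral_mono fun y => h3 y
    _ = (∫⁻ y in T, G y) * volume (Metric.ball (0 : CE n) r) := lintegral_mul_const _ hG
    _ = _ := mul_comm _ _

end Pool.Agent.Run7.h288.FK
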